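import Pool.Agent.Helper21.MT9.Stmts
import Pool.Agent.Helper25.HD.POS
import Mathlib.LinearAlgebra.Lagrange

/-!
Row HIR: irreducibility of the Lie algebra of the Mumford-Tate group.
-/

set_option autoImplicit false

open NumberField MU Matrix

namespace MT

theorem h25_itp {n w : ℕ} (h : Fin n → ℕ) (hw : ∀ j, h j ≤ w) (g : ℕ → ℂ) :
    ∃ p : Polynomial ℂ, ∀ j, p.eval (h j : ℂ) = g (h j) := by
  refine ⟨Lagrange.interpolate (Finset.range (w + 1)) (fun k : ℕ => (k : ℂ)) g, fun j => ?_⟩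
  have h1 : Set.InjOn (fun k : ℕ => (k : ℂ)) (Finset.range (w + 1) : Finset ℕ) := by
    intro a _ b _ hab
    exact Nat.cast_injective hab
  have h2 : h j ∈ Finset.range (w + 1) := by
    rw [Finset.mem_range]
    have := hw j
    omega
  exact Lagrange.eval_interpolate_at_node g h1 h2

theorem h25_aev {n m : ℕ} (Θ : Matrix (Fin n) (Fin n) ℂ) (Θ' : Matrix (Fin m) (Fin m) ℂ)
    (B : Matrix (Fin n) (Fin m) ℂ) (h : Θ * B = B * Θ') (p : Polynomial ℂ) :
    Polynomial.aeval Θ p * B = B * Polynomial.aeval Θ' p := by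
  induction p using Polynomial.induction_on' with
  | add p q hp hq => rw [map_add, map_add, Matrix.add_mul, Matrix.mul_add, hp, hq]
  | monomial k c =>
    have hk : Θ ^ k * B = B * Θ' ^ k := by
      induction k with
      | zero => rw [pow_zero, pow_zero, Matrix.one_mul, Matrix.mul_one]
      | succ k ih =>
        rw [pow_succ, pow_succ, Matrix.mul_assoc, h, ← Matrix.mul_assoc, ih, Matrix.mul_assoc]
    rw [Polynomial.aeval_monomial, Polynomial.aeval_monomial, Algebra.algebraMap_eq_smul_one,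
      Algebra.algebraMap_eq_smul_one, smul_mul_assoc, smul_mul_assoc, one_mul, one_mul,
      Matrix.smul_mul, Matrix.mul_smul, hk]

theorem h25_dia {n : ℕ} (d : Fin n → ℂ) (p : Polynomial ℂ) :
    Polynomial.aeval (diagonal d) p = diagonal (fun j => p.eval (d j)) := by
  induction p using Polynomial.induction_on' with
  | add p q hp hq =>
    rw [map_add, hp, hq, diagonal_add]
    congr 1
    funext j
    rw [Polynomial.eval_add]
  | monomial k c =>
    rw [Polynomial.aeval_monomial, Algebra.algebraMap_eq_smul_one, diagonal_pow, smul_mul_assoc,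
      one_mul]
    ext i j
    rw [Matrix.smul_apply, diagonal_apply, diagonal_apply]
    split_ifs
    · rw [Pi.pow_apply, Polynomial.eval_monomial, smul_eq_mul]
    · rw [smul_zero]

theorem h25_cnj {n : ℕ} (B Bi : Matrix (Fin n) (Fin n) ℂ) (h1 : B * Bi = 1) (h2 : Bi * B = 1)
    (d : Fin n → ℂ) (p : Polynomial ℂ) :
    Polynomial.aeval (B * diagonal d * Bi) p = B * diagonal (fun j => p.eval (d j)) * Bi := by
  have h3 : (B * diagonal d * Bi) * B = B * diagonal d := by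
    rw [Matrix.mul_assoc, h2, Matrix.mul_one]
  have h4 := h25_aev _ _ _ h3 p
  rw [h25_dia] at h4
  rw [← h4, Matrix.mul_assoc (Polynomial.aeval _ _) B Bi, h1, Matrix.mul_one]

theorem h25_hz {n : ℕ} (B : Matrix.GeneralLinearGroup (Fin n) ℂ) (h : Fin n → ℕ) (w : ℕ) (z : ℂˣ) :
    (hz B h w z : Matrix (Fin n) (Fin n) ℂ) = (B : Matrix (Fin n) (Fin n) ℂ) *
      diagonal (fun j => (z : ℂ) ^ h j * (star (z : ℂ)) ^ (w - h j)) *
        ((B⁻¹ : Matrix.GeneralLinearGroup (Fin n) ℂ) : Matrix (Fin n) (Fin n) ℂ) := by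
  unfold hz
  rw [Matrix.GeneralLinearGroup.coe_mul, Matrix.GeneralLinearGroup.coe_mul]
  congr 2

theorem h25_hzi {n : ℕ} (B : Matrix.GeneralLinearGroup (Fin n) ℂ) (h : Fin n → ℕ) (w : ℕ) (z : ℂˣ) :
    (((hz B h w z)⁻¹ : Matrix.GeneralLinearGroup (Fin n) ℂ) : Matrix (Fin n) (Fin n) ℂ) =
      (B : Matrix (Fin n) (Fin n) ℂ) *
      diagonal (fun j => ((z : ℂ) ^ h j * (star (z : ℂ)) ^ (w - h j))⁻¹) *
        ((B⁻¹ : Matrix.GeneralLinearGroup (Fin n) ℂ) : Matrix (Fin n) (Fin n) ℂ) := by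
  obtain ⟨Bi, hBi⟩ : ∃ Bi : Matrix (Fin n) (Fin n) ℂ,
    Bi = ((B⁻¹ : Matrix.GeneralLinearGroup (Fin n) ℂ) : Matrix (Fin n) (Fin n) ℂ) := ⟨_, rfl⟩
  have hBBi : (B : Matrix (Fin n) (Fin n) ℂ) * Bi = 1 := by
    rw [hBi, ← Matrix.GeneralLinearGroup.coe_mul, mul_inv_cancel]; rfl
  have hBiB : Bi * (B : Matrix (Fin n) (Fin n) ℂ) = 1 := by
    rw [hBi, ← Matrix.GeneralLinearGroup.coe_mul, inv_mul_cancel]; rfl
  have hz0 : (z : ℂ) ≠ 0 := z.ne_zero
  have hs0 : star (z : ℂ) ≠ 0 := star_ne_zero.mpr hz0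
  have hd : diagonal (fun j => ((z : ℂ) ^ h j * (star (z : ℂ)) ^ (w - h j))⁻¹) *
      diagonal (fun j => (z : ℂ) ^ h j * (star (z : ℂ)) ^ (w - h j)) = 1 := by
    rw [Matrix.diagonal_mul_diagonal, ← Matrix.diagonal_one]
    congr 1
    funext j
    exact inv_mul_cancel₀ (mul_ne_zero (pow_ne_zero _ hz0) (pow_ne_zero _ hs0))
  rw [← hBi]
  have e1 : ((B : Matrix (Fin n) (Fin n) ℂ) *
      diagonal (fun j => ((z : ℂ) ^ h j * (star (z : ℂ)) ^ (w - h j))⁻¹) * Bi) *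
      (hz B h w z : Matrix (Fin n) (Fin n) ℂ) = 1 := by
    rw [h25_hz, ← hBi]
    have : ∀ X Y : Matrix (Fin n) (Fin n) ℂ, (B : Matrix (Fin n) (Fin n) ℂ) * X * Bi *
        ((B : Matrix (Fin n) (Fin n) ℂ) * Y * Bi) = (B : Matrix (Fin n) (Fin n) ℂ) *
          (X * ((Bi * (B : Matrix (Fin n) (Fin n) ℂ)) * Y)) * Bi := by
      intro X Y
      simp only [Matrix.mul_assoc]
    rw [this, hBiB, Matrix.one_mul, hd, Matrix.mul_one, hBBi]
  have e2 : (hz B h w z : Matrix (Fin n) (Fin n) ℂ) *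
      (((hz B h w z)⁻¹ : Matrix.GeneralLinearGroup (Fin n) ℂ) : Matrix (Fin n) (Fin n) ℂ) = 1 := by
    rw [← Matrix.GeneralLinearGroup.coe_mul, mul_inv_cancel]; rfl
  calc _ = ((B : Matrix (Fin n) (Fin n) ℂ) *
      diagonal (fun j => ((z : ℂ) ^ h j * (star (z : ℂ)) ^ (w - h j))⁻¹) * Bi) *
      (hz B h w z : Matrix (Fin n) (Fin n) ℂ) *
        (((hz B h w z)⁻¹ : Matrix.GeneralLinearGroup (Fin n) ℂ) : Matrix (Fin n) (Fin n) ℂ) := by
          rw [e1, Matrix.one_mul]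
    _ = _ := by rw [Matrix.mul_assoc, e2, Matrix.mul_one]

/-- matrices of subspaces -/
theorem h25_sub {n : ℕ} (U : Submodule ℚ (Fin n → ℚ)) :
    ∃ (m : ℕ) (B : Matrix (Fin n) (Fin m) ℚ) (C : Matrix (Fin m) (Fin n) ℚ), C * B = 1 ∧
      (∀ y, B.mulVec y ∈ U) ∧ (∀ u ∈ U, ∃ y, u = B.mulVec y) ∧ (m = 0 → U = ⊥) ∧
      (m = n → U = ⊤) := by
  obtain ⟨b⟩ : Nonempty (Module.Basis (Fin (Module.finrank ℚ U)) ℚ U) := ⟨Module.finBasis ℚ U⟩
  have hB : ∀ y, (Matrix.of fun i j => (b j : Fin n → ℚ) i).mulVec y =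
      ((∑ j, y j • b j : U) : Fin n → ℚ) := by
    intro y
    funext i
    rw [AddSubmonoidClass.coe_finsetSum, Finset.sum_apply, mulVec, dotProduct]
    refine Finset.sum_congr rfl (fun j _ => ?_)
    rw [Matrix.of_apply, SetLike.val_smul, Pi.smul_apply, smul_eq_mul, mul_comm]
  have hinj : Function.Injective (Matrix.toLin' (Matrix.of fun i j => (b j : Fin n → ℚ) i)) := by
    rw [← LinearMap.ker_eq_bot, LinearMap.ker_eq_bot']
    intro y hy
    rw [Matrix.toLin'_apply, hB] at hy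
    have h1 : (∑ j, y j • b j : U) = 0 := Subtype.ext hy
    have h2 := (Fintype.linearIndependent_iff.mp b.linearIndependent) y h1
    funext j
    exact h2 j
  obtain ⟨g, hg⟩ := LinearMap.exists_leftInverse_of_injective _ (LinearMap.ker_eq_bot.mpr hinj)
  refine ⟨Module.finrank ℚ U, Matrix.of fun i j => (b j : Fin n → ℚ) i, LinearMap.toMatrix' g,
    ?_, ?_, ?_, ?_, ?_⟩
  · have h3 := congrArg LinearMap.toMatrix' hg
    rw [LinearMap.toMatrix'_comp, LinearMap.toMatrix'_toLin', LinearMap.toMatrix'_id] at h3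
    exact h3
  · intro y
    rw [hB]
    exact (∑ j, y j • b j : U).2
  · intro u hu
    refine ⟨fun j => b.repr ⟨u, hu⟩ j, ?_⟩
    rw [hB, b.sum_repr]
  · intro h0
    exact Submodule.finrank_eq_zero.mp h0
  · intro h0
    apply Submodule.eq_top_of_finrank_eq
    rw [h0, Module.finrank_fin_fun]

/-- the complexification of the intertwining -/
theorem h25_spn {n m : ℕ} (a : Submodule ℚ (Matrix (Fin n) (Fin n) ℚ))
    (B : Matrix (Fin n) (Fin m) ℚ) (ha : ∀ A ∈ a, ∃ A' : Matrix (Fin m) (Fin m) ℚ, A * B = B * A')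
    (Θ : Matrix (Fin n) (Fin n) ℂ)
    (hΘ : Θ ∈ Submodule.span ℂ {B | ∃ A ∈ a, B = A.map (algebraMap ℚ ℂ)}) :
    ∃ Θ' : Matrix (Fin m) (Fin m) ℂ,
      Θ * B.map (algebraMap ℚ ℂ) = B.map (algebraMap ℚ ℂ) * Θ' := by
  induction hΘ using Submodule.span_induction with
  | mem x hx =>
    obtain ⟨A, hA, rfl⟩ := hx
    obtain ⟨A', hA'⟩ := ha A hA
    exact ⟨A'.map (algebraMap ℚ ℂ), by rw [← Matrix.map_mul, hA', Matrix.map_mul]⟩
  | zero => exact ⟨0, by rw [Matrix.zero_mul, Matrix.mul_zero]⟩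
  | add x y _ _ hx hy =>
    obtain ⟨X, hX⟩ := hx
    obtain ⟨Y, hY⟩ := hy
    exact ⟨X + Y, by rw [Matrix.add_mul, Matrix.mul_add, hX, hY]⟩
  | smul c x _ hx =>
    obtain ⟨X, hX⟩ := hx
    exact ⟨c • X, by rw [Matrix.smul_mul, Matrix.mul_smul, hX]⟩

theorem h25_com {n : ℕ} (a : Submodule ℚ (Matrix (Fin n) (Fin n) ℚ))
    (Y : Matrix (Fin n) (Fin n) ℚ) (ha : ∀ A ∈ a, A * Y = Y * A)
    (Θ : Matrix (Fin n) (Fin n) ℂ)
    (hΘ : Θ ∈ Submodule.span ℂ {B | ∃ A ∈ a, B = A.map (algebraMap ℚ ℂ)}) :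
    Θ * Y.map (algebraMap ℚ ℂ) = Y.map (algebraMap ℚ ℂ) * Θ := by
  induction hΘ using Submodule.span_induction with
  | mem x hx =>
    obtain ⟨A, hA, rfl⟩ := hx
    rw [← Matrix.map_mul, ha A hA, Matrix.map_mul]
  | zero => rw [Matrix.zero_mul, Matrix.mul_zero]
  | add x y _ _ hx hy => rw [Matrix.add_mul, Matrix.mul_add, hx, hy]
  | smul c x _ hx => rw [Matrix.smul_mul, Matrix.mul_smul, hx]

theorem h25_bas {n m : ℕ} (X : Matrix (Fin n) (Fin m) ℚ) :
    X.map (fun x : ℚ => (x : ℂ)) = X.map (algebraMap ℚ ℂ) := by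
  ext i j
  rw [Matrix.map_apply, Matrix.map_apply, eq_ratCast]

section

variable {F : Type} [Field F] [NumberField F] {S : Finset ℕ} {n w : ℕ} {h : Fin n → ℕ}

/-- the matrices of the Hodge cocharacter are polynomials in `Θ` -/
theorem h25_pol (M : PMot F S n w h) (z : ℂˣ) :
    (∃ p : Polynomial ℂ, (hz M.hodge h w z : Matrix (Fin n) (Fin n) ℂ) = Polynomial.aeval
      ((M.hodge : Matrix (Fin n) (Fin n) ℂ) * Matrix.diagonal (fun j => (h j : ℂ)) *
        ((M.hodge⁻¹ : Matrix.GeneralLinearGroup (Fin n) ℂ) : Matrix (Fin n) (Fin n) ℂ)) p) ∧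
    ∃ p : Polynomial ℂ, (((hz M.hodge h w z)⁻¹ : Matrix.GeneralLinearGroup (Fin n) ℂ) :
      Matrix (Fin n) (Fin n) ℂ) = Polynomial.aeval
      ((M.hodge : Matrix (Fin n) (Fin n) ℂ) * Matrix.diagonal (fun j => (h j : ℂ)) *
        ((M.hodge⁻¹ : Matrix.GeneralLinearGroup (Fin n) ℂ) : Matrix (Fin n) (Fin n) ℂ)) p := by
  obtain ⟨Bi, hBi⟩ : ∃ Bi : Matrix (Fin n) (Fin n) ℂ,
    Bi = ((M.hodge⁻¹ : Matrix.GeneralLinearGroup (Fin n) ℂ) : Matrix (Fin n) (Fin n) ℂ) := ⟨_, rfl⟩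
  have hBBi : (M.hodge : Matrix (Fin n) (Fin n) ℂ) * Bi = 1 := by
    rw [hBi, ← Matrix.GeneralLinearGroup.coe_mul, mul_inv_cancel]; rfl
  have hBiB : Bi * (M.hodge : Matrix (Fin n) (Fin n) ℂ) = 1 := by
    rw [hBi, ← Matrix.GeneralLinearGroup.coe_mul, inv_mul_cancel]; rfl
  constructor
  · obtain ⟨p, hp⟩ := h25_itp h M.hodge_le (fun k => (z : ℂ) ^ k * (star (z : ℂ)) ^ (w - k))
    refine ⟨p, ?_⟩
    rw [h25_hz, ← hBi, h25_cnj _ _ hBBi hBiB]
    congr 3
    funext j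
    exact (hp j).symm
  · obtain ⟨p, hp⟩ := h25_itp h M.hodge_le (fun k => ((z : ℂ) ^ k * (star (z : ℂ)) ^ (w - k))⁻¹)
    refine ⟨p, ?_⟩
    rw [h25_hzi, ← hBi, h25_cnj _ _ hBBi hBiB]
    congr 3
    funext j
    exact (hp j).symm

/-- scalars from `HEnd` -/
theorem h25_sca (M : PMot F S n w h) (hE : M.HEnd) (a : Submodule ℚ (Matrix (Fin n) (Fin n) ℚ))
    (hΘ : (M.hodge : Matrix (Fin n) (Fin n) ℂ) * Matrix.diagonal (fun j => (h j : ℂ)) *
      ((M.hodge⁻¹ : Matrix.GeneralLinearGroup (Fin n) ℂ) : Matrix (Fin n) (Fin n) ℂ) ∈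
        Submodule.span ℂ {B | ∃ A ∈ a, B = A.map (algebraMap ℚ ℂ)})
    (Y : Matrix (Fin n) (Fin n) ℚ) (hY : ∀ A ∈ a, A * Y = Y * A) : ∃ c : ℚ, Y = c • 1 := by
  apply hE
  intro z
  obtain ⟨⟨p, hp⟩, -⟩ := h25_pol M z
  have h1 := h25_aev _ _ _ (h25_com a Y hY _ hΘ) p
  rw [← hp] at h1
  unfold bas
  rw [h25_bas]
  exact h1

/-- positivity: a stable subspace meets its orthogonal complement in `0` -/
theorem h25_dis (M : PMot F S n w h) (m : ℕ) (B : Matrix (Fin n) (Fin m) ℚ)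
    (a : Submodule ℚ (Matrix (Fin n) (Fin n) ℚ))
    (hΘ : (M.hodge : Matrix (Fin n) (Fin n) ℂ) * Matrix.diagonal (fun j => (h j : ℂ)) *
      ((M.hodge⁻¹ : Matrix.GeneralLinearGroup (Fin n) ℂ) : Matrix (Fin n) (Fin n) ℂ) ∈
        Submodule.span ℂ {B | ∃ A ∈ a, B = A.map (algebraMap ℚ ℂ)})
    (ha : ∀ A ∈ a, ∃ A' : Matrix (Fin m) (Fin m) ℚ, A * B = B * A') (Z : Matrix (Fin m) (Fin n) ℚ)
    (hZ : (B * Z).transpose * M.ψ * B = 0) : B * Z = 0 := by
  obtain ⟨z, hz'⟩ : ∃ z : ℂˣ, (z : ℂ) = Complex.I := ⟨Units.mk0 Complex.I Complex.I_ne_zero, rfl⟩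
  obtain ⟨-, p, hp⟩ := h25_pol M z
  obtain ⟨Θ', hΘ'⟩ := h25_spn a B ha _ hΘ
  have h1 := h25_aev _ _ _ hΘ' p
  rw [← hp] at h1
  apply HD.st_POS F S n w h M (B * Z) z hz'
  rw [Matrix.trace_mul_comm, Matrix.mul_assoc _ _ ((B * Z).map (algebraMap ℚ ℂ)),
    Matrix.map_mul (L := B) (M := Z), ← Matrix.mul_assoc _ (B.map (algebraMap ℚ ℂ)), h1]
  have h2 : (M.ψ⁻¹ * (B * Z).transpose * M.ψ) * B = 0 := by
    rw [Matrix.mul_assoc, Matrix.mul_assoc, ← Matrix.mul_assoc (B * Z).transpose, hZ,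
      Matrix.mul_zero]
  have h3 : (M.ψ⁻¹ * (B * Z).transpose * M.ψ).map (algebraMap ℚ ℂ) * B.map (algebraMap ℚ ℂ) = 0 := by
    rw [← Matrix.map_mul, h2]
    exact Matrix.map_zero _ (map_zero _)
  have h4 : (M.ψ⁻¹ * (B * Z).transpose * M.ψ).map (algebraMap ℚ ℂ) *
      (B.map (algebraMap ℚ ℂ) * Polynomial.aeval Θ' p * Z.map (algebraMap ℚ ℂ)) = 0 := by
    rw [← Matrix.mul_assoc, ← Matrix.mul_assoc, h3, Matrix.zero_mul, Matrix.zero_mul]
  rw [Matrix.mul_assoc (hz M.hodge h w z : Matrix (Fin n) (Fin n) ℂ), h4,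
    Matrix.mul_zero, Matrix.trace_zero]

/-- irreducibility from `HEnd` -/
theorem h25_irr (M : PMot F S n w h) (hE : M.HEnd) (a : Submodule ℚ (Matrix (Fin n) (Fin n) ℚ))
    (hs : ∀ A ∈ a, ∃ c : ℚ, A.transpose * M.ψ + M.ψ * A = c • M.ψ)
    (hΘ : (M.hodge : Matrix (Fin n) (Fin n) ℂ) * Matrix.diagonal (fun j => (h j : ℂ)) *
      ((M.hodge⁻¹ : Matrix.GeneralLinearGroup (Fin n) ℂ) : Matrix (Fin n) (Fin n) ℂ) ∈
        Submodule.span ℂ {B | ∃ A ∈ a, B = A.map (algebraMap ℚ ℂ)}) : LIrr a := by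
  intro U hU
  obtain ⟨m, B, C, hCB, hB1, hB2, -, -⟩ := h25_sub U
  have hst : ∀ A ∈ a, ∃ A' : Matrix (Fin m) (Fin m) ℚ, A * B = B * A' := by
    intro A hA
    have h1 : ∀ j, ∃ y : Fin m → ℚ, A.mulVec (fun i => B i j) = B.mulVec y := by
      intro j
      apply hB2
      apply hU A hA
      have : (fun i => B i j) = B.mulVec (Pi.single j 1) := by
        rw [Matrix.mulVec_single_one]
        rfl
      rw [this]
      exact hB1 _
    choose y hy using h1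
    refine ⟨Matrix.of fun i j => y j i, ?_⟩
    ext i j
    exact congrFun (hy j) i
  -- the form
  obtain ⟨β, hβ⟩ : ∃ β : LinearMap.BilinForm ℚ (Fin n → ℚ), β = Matrix.toBilin' M.ψ := ⟨_, rfl⟩
  have hβa : ∀ x y, β x y = x ⬝ᵥ M.ψ *ᵥ y := by
    intro x y
    rw [hβ, Matrix.toBilin'_apply']
  have hψs : ∀ x y, β x y = (-1) ^ w * β y x := by
    intro x y
    rw [hβa, hβa, Matrix.dotProduct_mulVec, ← Matrix.mulVec_transpose, M.ψ_sym, Matrix.smul_mulVec,
      smul_dotProduct, smul_eq_mul, dotProduct_comm]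
  have hrefl : β.IsRefl := by
    intro x y hxy
    rw [hψs, hxy, mul_zero]
  have hnd : β.Nondegenerate := by
    rw [hβ]
    exact LinearMap.BilinForm.nondegenerate_toBilin'_of_det_ne_zero' M.ψ M.ψ_det
  have hdis : Disjoint U (β.orthogonal U) := by
    rw [Submodule.disjoint_def]
    intro x hx hx'
    obtain ⟨y, hy⟩ := hB2 x hx
    have hZ : (B * (Matrix.of fun (i : Fin m) (_ : Fin n) => y i)).transpose * M.ψ * B = 0 := by
      ext j k
      have h1 : (B * (Matrix.of fun (i : Fin m) (_ : Fin n) => y i)).transpose j = x := by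
        rw [hy]
        rfl
      rw [Matrix.mul_assoc, Matrix.mul_apply_eq_vecMul, h1, Matrix.zero_apply]
      have h2 : (x ᵥ* (M.ψ * B)) k = x ⬝ᵥ M.ψ *ᵥ (B.mulVec (Pi.single k 1)) := by
        rw [Matrix.mulVec_mulVec, Matrix.mulVec_single_one]
        rfl
      rw [h2, ← hβa]
      apply hrefl
      rw [LinearMap.BilinForm.mem_orthogonal_iff] at hx'
      exact hx' _ (hB1 _)
    have h3 := h25_dis M m B a hΘ hst _ hZ
    funext i
    have h4 := congrFun (congrFun h3 i) i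
    rw [hy]
    exact h4
  have hcpl : IsCompl U (β.orthogonal U) :=
    (LinearMap.BilinForm.isCompl_orthogonal_iff_disjoint hrefl).mpr hdis
  have hV : ∀ A ∈ a, ∀ v ∈ β.orthogonal U, A.mulVec v ∈ β.orthogonal U := by
    intro A hA v hv
    obtain ⟨c, hc⟩ := hs A hA
    rw [LinearMap.BilinForm.mem_orthogonal_iff] at hv ⊢
    intro u hu
    have h1 : β u v = 0 := hv u hu
    have h2 : β (A.mulVec u) v = 0 := hv _ (hU A hA u hu)
    rw [hβa] at h1 h2
    show β u (A.mulVec v) = 0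
    rw [hβa]
    have h3 : A.mulVec u ⬝ᵥ M.ψ *ᵥ v + u ⬝ᵥ M.ψ *ᵥ (A *ᵥ v) = c * (u ⬝ᵥ M.ψ *ᵥ v) := by
      have e1 : A.mulVec u ⬝ᵥ M.ψ *ᵥ v = u ⬝ᵥ (A.transpose * M.ψ) *ᵥ v := by
        rw [← Matrix.mulVec_mulVec, Matrix.dotProduct_mulVec u, Matrix.vecMul_transpose]
      rw [e1, Matrix.mulVec_mulVec, ← dotProduct_add, ← Matrix.add_mulVec, hc, Matrix.smul_mulVec,
        dotProduct_smul, smul_eq_mul]
    rw [h1, h2, mul_zero, zero_add] at h3
    exact h3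
  obtain ⟨π, hπ⟩ : ∃ π : (Fin n → ℚ) →ₗ[ℚ] (Fin n → ℚ), π = U.projection (β.orthogonal U) hcpl :=
    ⟨_, rfl⟩
  have hπ1 : ∀ x ∈ U, π x = x := by
    intro x hx
    rw [hπ]
    exact Submodule.projection_apply_of_mem_left hcpl hx
  have hπ2 : ∀ x ∈ β.orthogonal U, π x = 0 := by
    intro x hx
    rw [hπ]
    exact Submodule.projection_apply_of_mem_right hcpl hx
  have hπ3 : ∀ x, π x ∈ U := by
    intro x
    rw [hπ]
    exact Submodule.projection_apply_mem hcpl x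
  have hcom : ∀ A ∈ a, A * LinearMap.toMatrix' π = LinearMap.toMatrix' π * A := by
    intro A hA
    apply Matrix.toLin'.injective
    apply LinearMap.ext
    intro x
    rw [Matrix.toLin'_mul, Matrix.toLin'_mul, LinearMap.comp_apply, LinearMap.comp_apply,
      Matrix.toLin'_toMatrix', Matrix.toLin'_apply, Matrix.toLin'_apply]
    obtain ⟨u, hu, v, hv, rfl⟩ := Submodule.mem_sup.mp
      (show x ∈ U ⊔ β.orthogonal U by rw [hcpl.sup_eq_top]; exact Submodule.mem_top)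
    rw [map_add, hπ1 u hu, hπ2 v hv, add_zero, Matrix.mulVec_add, map_add, hπ1 _ (hU A hA u hu),
      hπ2 _ (hV A hA v hv), add_zero]
  obtain ⟨c, hc⟩ := h25_sca M hE a hΘ _ hcom
  have hπc : ∀ x, π x = c • x := by
    intro x
    rw [← Matrix.toLin'_toMatrix' π, hc, Matrix.toLin'_apply, Matrix.smul_mulVec, Matrix.one_mulVec]
  by_cases hU0 : U = ⊥
  · exact Or.inl hU0
  · right
    obtain ⟨u, hu, hu0⟩ := Submodule.exists_mem_ne_zero_of_ne_bot hU0
    have h1 : c = 1 := by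
      have h2 : c • u = u := by rw [← hπc, hπ1 u hu]
      have h3 : (c - 1) • u = 0 := by rw [sub_smul, one_smul, h2, sub_self]
      rcases smul_eq_zero.mp h3 with h4 | h4
      · linarith
      · exact absurd h4 hu0
    rw [Submodule.eq_top_iff']
    intro x
    have h2 := hπ3 x
    rw [hπc, h1, one_smul] at h2
    exact h2

/-- irreducibility from `HIrr` -/
theorem h25_irr' (M : PMot F S n w h) (hE : M.HIrr) (a : Submodule ℚ (Matrix (Fin n) (Fin n) ℚ))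
    (hΘ : (M.hodge : Matrix (Fin n) (Fin n) ℂ) * Matrix.diagonal (fun j => (h j : ℂ)) *
      ((M.hodge⁻¹ : Matrix.GeneralLinearGroup (Fin n) ℂ) : Matrix (Fin n) (Fin n) ℂ) ∈
        Submodule.span ℂ {B | ∃ A ∈ a, B = A.map (algebraMap ℚ ℂ)}) : LIrr a := by
  intro U hU
  obtain ⟨m, B, C, hCB, hB1, hB2, hb0, hbn⟩ := h25_sub U
  have hst : ∀ A ∈ a, ∃ A' : Matrix (Fin m) (Fin m) ℚ, A * B = B * A' := by
    intro A hA
    have h1 : ∀ j, ∃ y : Fin m → ℚ, A.mulVec (fun i => B i j) = B.mulVec y := by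
      intro j
      apply hB2
      apply hU A hA
      have : (fun i => B i j) = B.mulVec (Pi.single j 1) := by
        rw [Matrix.mulVec_single_one]
        rfl
      rw [this]
      exact hB1 _
    choose y hy using h1
    refine ⟨Matrix.of fun i j => y j i, ?_⟩
    ext i j
    exact congrFun (hy j) i
  have h1 : m = 0 ∨ m = n := by
    apply hE m B ⟨C, hCB⟩
    intro z
    obtain ⟨⟨p, hp⟩, -⟩ := h25_pol M z
    obtain ⟨Θ', hΘ'⟩ := h25_spn a B hst _ hΘ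
    have h1 := h25_aev _ _ _ hΘ' p
    rw [← hp] at h1
    rw [h25_bas]
    exact ⟨_, h1⟩
  rcases h1 with h1 | h1
  · exact Or.inl (hb0 h1)
  · exact Or.inr (hbn h1)

/-- scalars in the case of middle Hodge number one -/
theorem h25_sca' (hOI : ST_OI2) (M : PMot F S n w h) (hM : Mid w h)
    (a : Submodule ℚ (Matrix (Fin n) (Fin n) ℚ)) (hirr : LIrr a)
    (hs : ∀ A ∈ a, ∃ c : ℚ, A.transpose * M.ψ + M.ψ * A = c • M.ψ)
    (hΘ : (M.hodge : Matrix (Fin n) (Fin n) ℂ) * Matrix.diagonal (fun j => (h j : ℂ)) *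
      ((M.hodge⁻¹ : Matrix.GeneralLinearGroup (Fin n) ℂ) : Matrix (Fin n) (Fin n) ℂ) ∈
        Submodule.span ℂ {B | ∃ A ∈ a, B = A.map (algebraMap ℚ ℂ)})
    (Y : Matrix (Fin n) (Fin n) ℚ) (hY : ∀ A ∈ a, A * Y = Y * A) : ∃ c : ℚ, Y = c • 1 := by
  obtain ⟨B, hB⟩ : ∃ B : Matrix (Fin n) (Fin n) ℂ, B = (M.hodge : Matrix (Fin n) (Fin n) ℂ) := ⟨_, rfl⟩
  obtain ⟨Bi, hBi⟩ : ∃ Bi : Matrix (Fin n) (Fin n) ℂ,
    Bi = ((M.hodge⁻¹ : Matrix.GeneralLinearGroup (Fin n) ℂ) : Matrix (Fin n) (Fin n) ℂ) := ⟨_, rfl⟩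
  have hBBi : B * Bi = 1 := by
    rw [hB, hBi, ← Matrix.GeneralLinearGroup.coe_mul, mul_inv_cancel]; rfl
  have hBiB : Bi * B = 1 := by
    rw [hB, hBi, ← Matrix.GeneralLinearGroup.coe_mul, inv_mul_cancel]; rfl
  obtain ⟨Ψ, hΨ⟩ : ∃ Ψ : Matrix (Fin n) (Fin n) ℂ, Ψ = M.ψ.map (algebraMap ℚ ℂ) := ⟨_, rfl⟩
  obtain ⟨D, hD⟩ : ∃ D : Matrix (Fin n) (Fin n) ℂ, D = diagonal (fun j => (h j : ℂ)) := ⟨_, rfl⟩
  obtain ⟨j₀, hj₀⟩ := Finset.card_eq_one.mp hM
  have hj1 : ∀ j, 2 * h j = w ↔ j = j₀ := by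
    intro j
    have h1 := Finset.ext_iff.mp hj₀ j
    rw [Finset.mem_filter, Finset.mem_singleton] at h1
    exact ⟨fun h2 => h1.mp ⟨Finset.mem_univ _, h2⟩, fun h2 => (h1.mpr h2).2⟩
  have hw0 : 2 * h j₀ = w := (hj1 j₀).mpr rfl
  have hsym : M.ψ.transpose = M.ψ := by
    have hpw : (-1 : ℚ) ^ w = 1 := by
      rw [← hw0, pow_mul, neg_one_sq, one_pow]
    rw [M.ψ_sym, hpw, one_smul]
  have hr0 : (h j₀ : ℂ) * 2 = (w : ℂ) := by
    rw [← hw0]
    push_cast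
    ring
  rw [← hB, ← hBi, ← hD] at hΘ
  have hmv : ∀ v : Fin n → ℂ, (B * D * Bi).mulVec v = B.mulVec (D.mulVec (Bi.mulVec v)) := by
    intro v
    rw [Matrix.mulVec_mulVec, Matrix.mulVec_mulVec, Matrix.mul_assoc]
  have hsub : B * D * Bi - (h j₀ : ℂ) • (1 : Matrix (Fin n) (Fin n) ℂ) =
      B * diagonal (fun j => (h j : ℂ) - (h j₀ : ℂ)) * Bi := by
    have e1 : diagonal (fun j => (h j : ℂ) - (h j₀ : ℂ)) = D - (h j₀ : ℂ) • 1 := by
      rw [hD, Matrix.smul_one_eq_diagonal, Matrix.diagonal_sub]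
    rw [e1, Matrix.mul_sub, Matrix.sub_mul, Matrix.mul_smul, Matrix.mul_one, Matrix.smul_mul, hBBi]
  have hker : ∀ v : Fin n → ℂ, (B * D * Bi).mulVec v = (h j₀ : ℂ) • v ↔
      ∀ j, ((h j : ℂ) - (h j₀ : ℂ)) * Bi.mulVec v j = 0 := by
    intro v
    have e1 : (B * D * Bi).mulVec v = (h j₀ : ℂ) • v ↔
        (B * diagonal (fun j => (h j : ℂ) - (h j₀ : ℂ)) * Bi).mulVec v = 0 := by
      rw [← hsub, Matrix.sub_mulVec, Matrix.smul_mulVec, Matrix.one_mulVec, sub_eq_zero]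
    rw [e1]
    constructor
    · intro h1 j
      have h2 := congrArg (fun x => Bi.mulVec x) h1
      simp only [Matrix.mulVec_zero, Matrix.mulVec_mulVec] at h2
      rw [← Matrix.mul_assoc, ← Matrix.mul_assoc, hBiB, Matrix.one_mul, ← Matrix.mulVec_mulVec] at h2
      have h3 := congrFun h2 j
      rw [Matrix.mulVec_diagonal] at h3
      exact h3
    · intro h1
      rw [Matrix.mul_assoc, ← Matrix.mulVec_mulVec, ← Matrix.mulVec_mulVec]
      have h2 : (diagonal (fun j => (h j : ℂ) - (h j₀ : ℂ))).mulVec (Bi.mulVec v) = 0 := by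
        funext j
        rw [Matrix.mulVec_diagonal]
        exact h1 j
      rw [h2, Matrix.mulVec_zero]
  refine hOI ℚ ℂ n M.ψ a (B * D * Bi) (h j₀ : ℂ) (B.mulVec (Pi.single j₀ 1)) M.ψ_det hsym hs hirr hΘ
    ?_ ?_ ?_ ?_ ?_ Y hY
  · -- the form
    rw [← hΨ]
    obtain ⟨K, hK⟩ : ∃ K : Matrix (Fin n) (Fin n) ℂ, K = B.transpose * Ψ * B := ⟨_, rfl⟩
    have hK0 : ∀ i j, K i j ≠ 0 → h i + h j = w := by
      intro i j hij
      apply M.hodge_ψ i j
      unfold bas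
      rw [h25_bas, ← hB, ← hΨ, ← hK]
      exact hij
    have hK1 : D * K + K * D = (2 * (h j₀ : ℂ)) • K := by
      ext i j
      rw [Matrix.add_apply, hD, Matrix.diagonal_mul, Matrix.mul_diagonal, Matrix.smul_apply,
        smul_eq_mul]
      by_cases h0 : K i j = 0
      · rw [h0, mul_zero, zero_mul, mul_zero, add_zero]
      · have h1 := hK0 i j h0
        have h2 : (h i : ℂ) + (h j : ℂ) = 2 * (h j₀ : ℂ) := by
          rw [← hw0] at h1
          exact_mod_cast h1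
        rw [← h2]
        ring
    have ht : B.transpose * Bi.transpose = 1 := by
      rw [← Matrix.transpose_mul, hBiB, Matrix.transpose_one]
    have ht' : Bi.transpose * B.transpose = 1 := by
      rw [← Matrix.transpose_mul, hBBi, Matrix.transpose_one]
    have hΨK : Ψ = Bi.transpose * K * Bi := by
      rw [hK]
      have : Bi.transpose * (B.transpose * Ψ * B) * Bi =
          (Bi.transpose * B.transpose) * Ψ * (B * Bi) := by simp only [Matrix.mul_assoc]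
      rw [this, ht', hBBi, Matrix.one_mul, Matrix.mul_one]
    have hDt : D.transpose = D := by
      rw [hD, Matrix.diagonal_transpose]
    rw [hΨK, Matrix.transpose_mul, Matrix.transpose_mul, hDt]
    have e1 : Bi.transpose * (D * B.transpose) * (Bi.transpose * K * Bi) =
        Bi.transpose * (D * ((B.transpose * Bi.transpose) * K)) * Bi := by
      simp only [Matrix.mul_assoc]
    have e2 : Bi.transpose * K * Bi * (B * D * Bi) = Bi.transpose * (K * ((Bi * B) * D)) * Bi := by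
      simp only [Matrix.mul_assoc]
    rw [e1, e2, ht, hBiB, Matrix.one_mul, Matrix.one_mul, ← Matrix.add_mul, ← Matrix.mul_add, hK1,
      Matrix.mul_smul, Matrix.smul_mul]
  · intro h1
    have h2 := congrArg (fun x => Bi.mulVec x) h1
    simp only [Matrix.mulVec_zero, Matrix.mulVec_mulVec] at h2
    rw [hBiB, Matrix.one_mulVec] at h2
    have h3 := congrFun h2 j₀
    simp at h3
  · rw [hker]
    intro j
    rw [Matrix.mulVec_mulVec, hBiB, Matrix.one_mulVec]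
    by_cases hj : j = j₀
    · rw [hj, sub_self, zero_mul]
    · rw [Pi.single_eq_of_ne hj, mul_zero]
  · intro v hv
    rw [hker] at hv
    refine ⟨Bi.mulVec v j₀, ?_⟩
    have h1 : Bi.mulVec v = Bi.mulVec v j₀ • Pi.single j₀ (1 : ℂ) := by
      funext j
      by_cases hj : j = j₀
      · rw [hj, Pi.smul_apply, Pi.single_eq_same, smul_eq_mul, mul_one]
      · rw [Pi.smul_apply, Pi.single_eq_of_ne hj, smul_zero]
        rcases mul_eq_zero.mp (hv j) with h2 | h2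
        · exfalso
          apply hj
          rw [← hj1]
          have h3 : h j = h j₀ := by
            exact_mod_cast sub_eq_zero.mp h2
          rw [h3, hw0]
        · exact h2
    rw [← Matrix.mulVec_smul, ← h1, Matrix.mulVec_mulVec, hBBi, Matrix.one_mulVec]
  · intro v hv
    rw [hker]
    intro j
    rw [hsub, Matrix.mulVec_mulVec] at hv
    have h2 := congrArg (fun x => Bi.mulVec x) hv
    simp only [Matrix.mulVec_zero, Matrix.mulVec_mulVec] at h2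
    have e1 : ∀ E : Matrix (Fin n) (Fin n) ℂ, Bi * (B * E * Bi * (B * E * Bi)) =
        (Bi * B) * E * ((Bi * B) * (E * Bi)) := by
      intro E
      simp only [Matrix.mul_assoc]
    rw [e1, hBiB, Matrix.one_mul, Matrix.one_mul, ← Matrix.mulVec_mulVec, ← Matrix.mulVec_mulVec] at h2
    have h3 := congrFun h2 j
    rw [Matrix.mulVec_diagonal, Matrix.mulVec_diagonal, Pi.zero_apply] at h3
    rcases mul_eq_zero.mp h3 with h4 | h4
    · rw [h4, zero_mul]
    · exact h4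

end

/-- Row HIR -/
theorem st_HIR (hOI2 : ST_OI2) : ST_HIR := by
  intro F _ _ S n w h M a hA hs hΘ
  rcases hA with hE | ⟨hM, hI⟩
  · exact ⟨h25_irr M hE a hs hΘ, h25_sca M hE a hΘ⟩
  · have h1 := h25_irr' M hI a hΘ
    exact ⟨h1, h25_sca' hOI2 M hM a h1 hs hΘ⟩

end MT
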